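import Pool.Agent.L7h83.HO.Stm

/-! Project HO, part NE. -/

set_option autoImplicit false

open MvPolynomial Topology

namespace Pool.Agent.L7h9.HO

open Pool.Agent.L7h83.HO

/-- the point `u exp (i θ)` -/
noncomputable def w (u : ℂ) (θ : ℝ) : ℂ := u * Complex.exp (θ * Complex.I)

/-- the form on the circle -/
noncomputable def g (p : Polynomial ℂ) (u : ℂ) (θ s : ℝ) : ℝ :=
  (∑ j ∈ Finset.range 9, p.coeff j * w u θ ^ j * (s : ℂ) ^ (8 - j)).re

theorem cont_w (u : ℂ) : Continuous (w u) := by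
  unfold w
  fun_prop

theorem cont_g1 (p : Polynomial ℂ) (u : ℂ) (s : ℝ) : Continuous fun θ => g p u θ s := by
  have := cont_w u
  unfold g
  fun_prop

theorem cont_g2 (p : Polynomial ℂ) (u : ℂ) (θ : ℝ) : Continuous fun s => g p u θ s := by
  unfold g
  fun_prop

theorem g_zero (p : Polynomial ℂ) (u : ℂ) (h : (p.coeff 8 * u ^ 8).re = 0) (θ : ℝ) :
    g p u θ 0 = -(p.coeff 8 * u ^ 8).im * Real.sin (8 * θ) := by
  have h1 : g p u θ 0 = (p.coeff 8 * w u θ ^ 8).re := by
    unfold g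
    simp [Finset.sum_range_succ]
  have h2 : p.coeff 8 * w u θ ^ 8 = (p.coeff 8 * u ^ 8) * Complex.exp ((8 * θ : ℝ) * Complex.I) := by
    unfold w
    rw [mul_pow, ← Complex.exp_nat_mul, mul_assoc]
    congr 3
    push_cast
    ring
  rw [h1, h2, Complex.mul_re, h, Complex.exp_ofReal_mul_I_re, Complex.exp_ofReal_mul_I_im]
  ring

theorem eval_scale (p : Polynomial ℂ) (hp : p.natDegree = 8) (u : ℂ) (θ s : ℝ) (hs : 0 < s) :
    g p u θ s = s ^ 8 * (p.eval (w u θ / s)).re := by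
  have hs0 : (s : ℂ) ≠ 0 := by exact_mod_cast hs.ne'
  have h1 : (s : ℂ) ^ 8 * p.eval (w u θ / s) =
      ∑ j ∈ Finset.range 9, p.coeff j * w u θ ^ j * (s : ℂ) ^ (8 - j) := by
    rw [Polynomial.eval_eq_sum_range' (n := 9) (by omega), Finset.mul_sum]
    refine Finset.sum_congr rfl fun j hj => ?_
    have hj8 : j ≤ 8 := by
      have := Finset.mem_range.mp hj
      omega
    have h2 : (s : ℂ) ^ 8 = (s : ℂ) ^ (8 - j) * (s : ℂ) ^ j := by
      rw [← pow_add]
      congr 1
      omega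
    rw [h2, div_pow]
    field_simp
  unfold g
  rw [← h1]
  have h3 : ((s : ℂ) ^ 8) = ((s ^ 8 : ℝ) : ℂ) := by push_cast; rfl
  rw [h3, Complex.re_ofReal_mul]

theorem s_NE : NE := by
  intro p hp u hu hre U hU
  have hβ : (p.coeff 8 * u ^ 8).im ≠ 0 := by
    intro h0
    have h1 : p.coeff 8 * u ^ 8 = 0 := Complex.ext hre h0
    have hp0 : p ≠ 0 := by
      rintro rfl
      simp at hp
    have hc : p.coeff 8 ≠ 0 := by
      have := Polynomial.leadingCoeff_ne_zero.mpr hp0
      rwa [Polynomial.leadingCoeff, hp] at this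
    have hu0 : u ≠ 0 := by
      rintro rfl
      simp at hu
    exact mul_ne_zero hc (pow_ne_zero _ hu0) h1
  -- the neighbourhood
  have hΦ : Continuous fun x : ℝ × ℝ => (![(w u x.1).re, (w u x.1).im, x.2] : Fin 3 → ℝ) := by
    have h1 := cont_w u
    refine continuous_pi fun i => ?_
    fin_cases i
    · exact Complex.continuous_re.comp (h1.comp continuous_fst)
    · exact Complex.continuous_im.comp (h1.comp continuous_fst)
    · exact continuous_snd
  have hN : {x : ℝ × ℝ | (![(w u x.1).re, (w u x.1).im, x.2] : Fin 3 → ℝ) ∈ U} ∈ 𝓝 ((0, 0) : ℝ × ℝ) := by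
    apply hΦ.continuousAt
    have h0 : (fun x : ℝ × ℝ => (![(w u x.1).re, (w u x.1).im, x.2] : Fin 3 → ℝ)) (0, 0) =
        ![u.re, u.im, 0] := by
      simp [w]
    rw [h0]
    exact hU
  obtain ⟨δ, hδ, hball⟩ := Metric.mem_nhds_iff.mp hN
  have hin : ∀ θ s : ℝ, |θ| < δ → |s| < δ →
      (![(w u θ).re, (w u θ).im, s] : Fin 3 → ℝ) ∈ U := by
    intro θ s h1 h2
    have : ((θ, s) : ℝ × ℝ) ∈ Metric.ball ((0, 0) : ℝ × ℝ) δ := by
      rw [Metric.mem_ball, Prod.dist_eq]
      simp only [dist_zero_right, Real.norm_eq_abs, max_lt_iff]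
      exact ⟨h1, h2⟩
    exact hball this
  set ε : ℝ := min (δ / 2) (Real.pi / 16) with hε
  have hε0 : 0 < ε := lt_min (by linarith) (by positivity)
  have hε1 : ε < δ := lt_of_le_of_lt (min_le_left _ _) (by linarith)
  have hε2 : ε ≤ Real.pi / 16 := min_le_right _ _
  have hsin : 0 < Real.sin (8 * ε) := by
    apply Real.sin_pos_of_pos_of_lt_pi
    · linarith
    · have := Real.pi_pos
      linarith
  set β := (p.coeff 8 * u ^ 8).im with hβd
  have hprod0 : g p u ε 0 * g p u (-ε) 0 < 0 := by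
    rw [g_zero p u hre, g_zero p u hre, mul_neg, Real.sin_neg]
    have : 0 < (β * Real.sin (8 * ε)) ^ 2 := by positivity
    nlinarith
  have hcont : Continuous fun s => g p u ε s * g p u (-ε) s := (cont_g2 p u ε).mul (cont_g2 p u (-ε))
  have hev : ∀ᶠ s in 𝓝 (0 : ℝ), g p u ε s * g p u (-ε) s < 0 :=
    hcont.continuousAt.eventually_lt continuousAt_const hprod0
  obtain ⟨η, hη, hηb⟩ := Metric.mem_nhds_iff.mp hev
  set s : ℝ := min (η / 2) (δ / 2) with hs
  have hs0 : 0 < s := lt_min (by linarith) (by linarith)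
  have hs1 : s < η := lt_of_le_of_lt (min_le_left _ _) (by linarith)
  have hs2 : s < δ := lt_of_le_of_lt (min_le_right _ _) (by linarith)
  have hneg : g p u ε s * g p u (-ε) s < 0 := by
    apply hηb
    rw [Metric.mem_ball, Real.dist_eq, sub_zero, abs_of_pos hs0]
    exact hs1
  have hiv : (0 : ℝ) ∈ (fun θ => g p u θ s) '' Set.uIcc (-ε) ε := by
    apply intermediate_value_uIcc (cont_g1 p u s).continuousOn
    rw [Set.mem_uIcc]
    rcases mul_neg_iff.mp hneg with ⟨h1, h2⟩ | ⟨h1, h2⟩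
    · exact Or.inl ⟨h2.le, h1.le⟩
    · exact Or.inr ⟨h1.le, h2.le⟩
  obtain ⟨θ, hθ, hθ0⟩ := hiv
  have hθa : |θ| < δ := by
    rw [Set.uIcc_of_le (by linarith)] at hθ
    exact lt_of_le_of_lt (abs_le.mpr hθ) hε1
  refine ⟨w u θ / s, s, hs0, ?_, ?_⟩
  · have h1 := eval_scale p hp u θ s hs0
    rw [show g p u θ s = 0 from hθ0] at h1
    have h2 : s ^ 8 ≠ 0 := pow_ne_zero _ hs0.ne'
    exact (mul_eq_zero.mp h1.symm).resolve_left h2
  · have h1 : s * (w u θ / (s : ℂ)).re = (w u θ).re := by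
      rw [Complex.div_ofReal_re]
      field_simp
    have h2 : s * (w u θ / (s : ℂ)).im = (w u θ).im := by
      rw [Complex.div_ofReal_im]
      field_simp
    rw [h1, h2]
    exact hin θ s hθa (by rw [abs_of_pos hs0]; exact hs2)

end Pool.Agent.L7h9.HO
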